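import Pool.Agent.H92.EZ.Targets
import Pool.Agent.H81.GT.SHP

/-!
Energy of the wave near a Lorentz quadric (MP_ee74d2_an): the sum over separated planks in a ball.
-/

set_option autoImplicit false

namespace Pool.Agent.H65.EZ

open MeasureTheory Set FourierTransform
open scoped ENNReal NNReal RealInnerProductSpace
open Pool.Agent.H83.LS
open Pool.Agent.H83.G (Z TF Rg Cls pl Lo Bp TP wt ph ctr Sep)
open Pool.Agent.H81.GT
open Pool.Agent.H54.LS (continuous_pr)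
open Pool.Agent.H92.EZ

theorem wt_neg {n : ℕ} (N : ℕ) (x y : Z n) : wt N (x - y) = wt N (y - x) := by
  unfold wt
  rw [norm_sub_rev]

theorem tz_sub {n : ℕ} (x y : Z n) : tz (x - y) = tz x - tz y := by
  unfold tz
  simp only [Prod.fst_sub, Prod.snd_sub]
  ring

/-- the decay of the weights in time -/
theorem ezm_time {n : ℕ} (hLOB : Pool.Agent.H83.G.T_LOB) {s : ℝ} {η : EE n} {z₀ p z' : Z n}
    (hs : 0 < s) (hs1 : s ≤ 1) (hη : ‖η‖ ≤ 5) (hp : ‖p - z₀‖ ≤ 4 * s⁻¹ ^ 2) :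
    wt 2 (Lo η s (z' - p)) ≤ 72 ^ 2 * ((1 + |s ^ 2 * (tz z' - tz z₀)|) ^ 2)⁻¹ := by
  have h1 := (hLOB n 5 (by norm_num)).2.1 η s (z' - p) hη hs hs1
  have h2 := tz_norm (z' - p)
  have h3 := tz_norm (p - z₀)
  have h4 : tz z' - tz z₀ = tz (z' - p) + tz (p - z₀) := by
    rw [tz_sub, tz_sub]
    ring
  set L : ℝ := ‖Lo η s (z' - p)‖ with hL
  have hL0 : 0 ≤ L := norm_nonneg _
  have h5 : |tz z' - tz z₀| ≤ 72 * (s⁻¹ ^ 2 * L) + 8 * s⁻¹ ^ 2 := by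
    rw [h4]
    refine (abs_add_le _ _).trans ?_
    have : (1 + 5 : ℝ) ^ 2 * s⁻¹ ^ 2 * L = 36 * (s⁻¹ ^ 2 * L) := by ring
    linarith
  have h6 : |s ^ 2 * (tz z' - tz z₀)| ≤ 72 * L + 8 := by
    rw [abs_mul, abs_of_pos (by positivity : (0 : ℝ) < s ^ 2)]
    calc s ^ 2 * |tz z' - tz z₀| ≤ s ^ 2 * (72 * (s⁻¹ ^ 2 * L) + 8 * s⁻¹ ^ 2) := by gcongr
      _ = 72 * L + 8 := by field_simp
  have h7 : 1 + |s ^ 2 * (tz z' - tz z₀)| ≤ 72 * (1 + L) := by linarith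
  have h8 : 0 < 1 + |s ^ 2 * (tz z' - tz z₀)| := by positivity
  show ((1 + L) ^ 2)⁻¹ ≤ _
  rw [← div_eq_mul_inv, le_div_iff₀ (by positivity), inv_mul_eq_div, div_le_iff₀ (by positivity)]
  calc (1 + |s ^ 2 * (tz z' - tz z₀)|) ^ 2 ≤ (72 * (1 + L)) ^ 2 := by gcongr
    _ = 72 ^ 2 * (1 + L) ^ 2 := by ring

/-- the weights of the separated planks of one cap -/
theorem ezm_pt {n N : ℕ} (hLOA : Pool.Agent.H83.G.T_LOA) (hLOB : Pool.Agent.H83.G.T_LOB)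
    (hWT1 : Pool.Agent.H83.G.T_WT1) {C₃ : ℝ≥0}
    (hC₃ : ∀ (X : Finset (Z n)) (y : Z n), Sep X → ∑ z ∈ X, ENNReal.ofReal (wt N (z - y)) ≤ C₃)
    {s : ℝ} {η : EE n} {z₀ : Z n} (hs : 0 < s) (hs1 : s ≤ 1) (hη : ‖η‖ ≤ 5) (X : Finset (Z n))
    (hX : ∀ p ∈ X, ‖p - z₀‖ ≤ 4 * s⁻¹ ^ 2)
    (hsep : ∀ p ∈ X, ∀ p' ∈ X, p ≠ p' → 1 ≤ ‖Lo η s (p - p')‖) (z' : Z n) :
    ∑ p ∈ X, ENNReal.ofReal (wt (N + 2) (Lo η s (z' - p))) ≤
      C₃ * ENNReal.ofReal (72 ^ 2 * ((1 + |s ^ 2 * (tz z' - tz z₀)|) ^ 2)⁻¹) := by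
  classical
  have hinj : Set.InjOn (Lo η s) (X : Set (Z n)) := by
    intro p hp p' hp' h
    by_contra hne
    have h1 := hsep p hp p' hp' hne
    rw [((hLOA n).1 η s _ _).2.1, h, sub_self, norm_zero] at h1
    linarith
  have hSep : Sep (X.image (Lo η s)) := by
    intro y hy y' hy' hne
    obtain ⟨p, hp, rfl⟩ := Finset.mem_image.1 hy
    obtain ⟨p', hp', rfl⟩ := Finset.mem_image.1 hy'
    rw [← ((hLOA n).1 η s _ _).2.1]
    exact hsep p hp p' hp' (fun h => hne (by rw [h]))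
  have h1 := hC₃ _ (Lo η s z') hSep
  rw [Finset.sum_image hinj] at h1
  calc ∑ p ∈ X, ENNReal.ofReal (wt (N + 2) (Lo η s (z' - p)))
      ≤ ∑ p ∈ X, ENNReal.ofReal (wt N (Lo η s p - Lo η s z')) *
          ENNReal.ofReal (72 ^ 2 * ((1 + |s ^ 2 * (tz z' - tz z₀)|) ^ 2)⁻¹) := by
        refine Finset.sum_le_sum fun p hp => ?_
        rw [(hWT1 n N).2.2.2.2.2.1, ENNReal.ofReal_mul ((hWT1 n N).1 _).1.le]
        refine mul_le_mul' (le_of_eq ?_)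
          (ENNReal.ofReal_le_ofReal (ezm_time hLOB hs hs1 hη (hX p hp)))
        rw [((hLOA n).1 η s _ _).2.1, wt_neg]
    _ = (∑ p ∈ X, ENNReal.ofReal (wt N (Lo η s p - Lo η s z'))) *
          ENNReal.ofReal (72 ^ 2 * ((1 + |s ^ 2 * (tz z' - tz z₀)|) ^ 2)⁻¹) := by
        rw [Finset.sum_mul]
    _ ≤ _ := by gcongr

/-- the integral of the weight in time -/
theorem ezm_int {s : ℝ} (hs : 0 < s) (t₀ : ℝ) :
    ∫⁻ t : ℝ, ENNReal.ofReal (((1 + |s ^ 2 * (t - t₀)|) ^ 2)⁻¹) =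
      ENNReal.ofReal (s⁻¹ ^ 2) * ∫⁻ t : ℝ, ENNReal.ofReal (((1 + |t|) ^ 2)⁻¹) := by
  have hs2 : (0 : ℝ) < s ^ 2 := by positivity
  rw [lintegral_sub_right_eq_self
    (fun t : ℝ => ENNReal.ofReal (((1 + |s ^ 2 * t|) ^ 2)⁻¹)) t₀]
  have hgen : ∀ F : ℝ → ℝ≥0∞, ∫⁻ t : ℝ, F (s ^ 2 * t) =
      ∫⁻ t, F t ∂(Measure.map (fun t : ℝ => s ^ 2 * t) volume) := fun F =>
    ((Homeomorph.mulLeft₀ (s ^ 2) hs2.ne').measurableEmbedding.lintegral_map _).symm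
  have h2 : ∫⁻ t : ℝ, ENNReal.ofReal (((1 + |s ^ 2 * t|) ^ 2)⁻¹) =
      ∫⁻ t, ENNReal.ofReal (((1 + |t|) ^ 2)⁻¹) ∂(Measure.map (fun t : ℝ => s ^ 2 * t) volume) :=
    hgen fun t => ENNReal.ofReal (((1 + |t|) ^ 2)⁻¹)
  rw [h2, Real.map_volume_mul_left hs2.ne', lintegral_smul_measure, abs_of_pos (by positivity),
    inv_pow]
  rfl

theorem ezm_fin : ∫⁻ t : ℝ, ENNReal.ofReal (((1 + |t|) ^ 2)⁻¹) ≠ ∞ := by
  have h := finite_integral_one_add_norm (μ := (volume : Measure ℝ)) (r := 2)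
    (by rw [Module.finrank_self]; norm_num)
  refine ne_of_lt ?_
  refine lt_of_le_of_lt (le_of_eq (lintegral_congr fun t => ?_)) h
  rw [Real.rpow_neg (by positivity), ← Real.rpow_natCast, Real.norm_eq_abs]
  norm_num

theorem pf_EZM (EZP : T_EZP) (COV : Pool.Agent.H81.GT.T_COV) (ACS : Pool.Agent.H81.GT.T_ACS)
    (LOA : Pool.Agent.H83.G.T_LOA) (LOB : Pool.Agent.H83.G.T_LOB)
    (WT1 : Pool.Agent.H83.G.T_WT1) (WT3 : Pool.Agent.H83.G.T_WT3) : T_EZM := by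
  classical
  intro n N κ a X χ hN hκ ha hX
  obtain ⟨N', rfl⟩ : ∃ N', N = N' + 2 := ⟨N - 2, by omega⟩
  obtain ⟨C₃, -, -, -, hC₃, -⟩ := WT3 n N' (by omega)
  obtain ⟨Cp, hCp, hP⟩ := EZP n κ a hκ ha
  obtain ⟨Cx, hCx, hχ⟩ := hX.2.2.2.2.2 0
  set C₄ : ℝ≥0∞ := ∫⁻ t : ℝ, ENNReal.ofReal (((1 + |t|) ^ 2)⁻¹) with hC₄
  have hC₄f : C₄ ≠ ∞ := ezm_fin
  set Kc : ℝ≥0∞ := 2⁻¹ * (C₃ * ENNReal.ofReal (72 ^ 2) * (ENNReal.ofReal (Cx ^ 2) *
    ENNReal.ofReal Cp)) * C₄ with hKc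
  have hKcf : Kc ≠ ∞ := by
    rw [hKc]
    have : (2⁻¹ : ℝ≥0∞) ≠ ∞ := by norm_num
    finiteness
  refine ⟨Kc.toReal + 1, by positivity, ?_⟩
  intro R A s z₀ f P hR hf hs hs1 hball hsep
  set J : ℝ≥0∞ := ∫⁻ x, ‖f x‖ₑ ^ 2 with hJ
  set G : (Fin n → ℤ) → Z n → ℝ≥0∞ := fun k z' =>
    ‖Ua (ac a (ctr s k) s) (tz z') f (xz z') * χ (tz z' / R)‖ₑ ^ 2 with hG
  have hχc : Continuous fun z : Z n => χ (tz z / R) := hX.2.2.2.2.1.comp (tz_cont.div_const R)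
  have hUc : ∀ k : Fin n → ℤ, Continuous fun z : Z n => Ua (ac a (ctr s k) s) (tz z) f (xz z) :=
    fun k => Ua_zcont (ACS n κ s (ctr s k) a hκ ha hs).1 (Pool.Agent.H19.LS.BCd_int A _ hf)
  have hGm : ∀ k, Measurable (G k) := fun k => ((hUc k).mul hχc).enorm.measurable.pow_const 2
  have hwm : ∀ p : (Fin n → ℤ) × Z n, Measurable fun z' : Z n =>
      ENNReal.ofReal (wt (N' + 2) (Lo (ctr s p.1) s (z' - p.2))) := by
    intro p
    have h1 : Continuous fun z' : Z n => Lo (ctr s p.1) s (z' - p.2) := by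
      unfold Lo
      fun_prop
    exact (((WT1 n (N' + 2)).2.1.comp h1).measurable).ennreal_ofReal
  set I : Finset (Fin n → ℤ) := P.image Prod.fst with hI
  set φ : ℝ → ℝ := fun t => ((1 + |s ^ 2 * (t - tz z₀)|) ^ 2)⁻¹ with hφ
  have hφm : Measurable fun t : ℝ => ENNReal.ofReal (φ t) := by
    have h1 : Measurable φ := by
      rw [hφ]
      fun_prop
    exact h1.ennreal_ofReal
  have hφ72m : Measurable fun z' : Z n => ENNReal.ofReal (72 ^ 2 * φ (tz z')) := by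
    have h1 : Measurable fun t : ℝ => ENNReal.ofReal (72 ^ 2 * φ t) := by
      have h1 : Measurable φ := by
        rw [hφ]
        fun_prop
      exact (h1.const_mul _).ennreal_ofReal
    exact h1.comp tz_cont.measurable
  -- pointwise
  have hpt : ∀ z' : Z n, ∑ p ∈ P, G p.1 z' *
      ENNReal.ofReal (wt (N' + 2) (Lo (ctr s p.1) s (z' - p.2))) ≤
      (C₃ * ENNReal.ofReal (72 ^ 2 * φ (tz z'))) * ∑ k ∈ I, G k z' := by
    intro z'
    rw [← Finset.sum_fiberwise_of_maps_to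
      (fun p hp => Finset.mem_image_of_mem Prod.fst hp : ∀ p ∈ P, Prod.fst p ∈ I), Finset.mul_sum]
    refine Finset.sum_le_sum fun k hk => ?_
    obtain ⟨p₀, hp₀, hp₀k⟩ := Finset.mem_image.1 hk
    have hη : ‖ctr s k‖ ≤ 5 := by
      rw [← hp₀k]
      exact (hball p₀ hp₀).1
    have hinj : Set.InjOn (Prod.snd : (Fin n → ℤ) × Z n → Z n)
        ((P.filter fun p => p.1 = k : Finset _) : Set ((Fin n → ℤ) × Z n)) := by
      intro p hp p' hp' h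
      have h1 := (Finset.mem_filter.1 hp).2
      have h2 := (Finset.mem_filter.1 hp').2
      exact Prod.ext (h1.trans h2.symm) h
    have h1 := ezm_pt LOA LOB WT1 hC₃ (z₀ := z₀) hs hs1 hη
      ((P.filter fun p => p.1 = k).image Prod.snd) (by
        intro y hy
        obtain ⟨p, hp, rfl⟩ := Finset.mem_image.1 hy
        exact (hball p (Finset.mem_filter.1 hp).1).2) (by
        intro y hy y' hy' hne
        obtain ⟨p, hp, rfl⟩ := Finset.mem_image.1 hy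
        obtain ⟨p', hp', rfl⟩ := Finset.mem_image.1 hy'
        obtain ⟨hp1, hp2⟩ := Finset.mem_filter.1 hp
        obtain ⟨hp1', hp2'⟩ := Finset.mem_filter.1 hp'
        have h2 := hsep p hp1 p' hp1' (hp2.trans hp2'.symm) (fun h => hne (by rw [h]))
        rw [hp2] at h2
        exact h2) z'
    rw [Finset.sum_image hinj] at h1
    calc ∑ p ∈ P with p.1 = k, G p.1 z' *
          ENNReal.ofReal (wt (N' + 2) (Lo (ctr s p.1) s (z' - p.2)))
        = ∑ p ∈ P with p.1 = k, G k z' *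
          ENNReal.ofReal (wt (N' + 2) (Lo (ctr s k) s (z' - p.2))) := by
          refine Finset.sum_congr rfl fun p hp => ?_
          rw [(Finset.mem_filter.1 hp).2]
      _ = G k z' * ∑ p ∈ P with p.1 = k,
          ENNReal.ofReal (wt (N' + 2) (Lo (ctr s k) s (z' - p.2))) := by rw [Finset.mul_sum]
      _ ≤ G k z' * (C₃ * ENNReal.ofReal (72 ^ 2 * φ (tz z'))) := by gcongr
      _ = _ := mul_comm _ _
  -- one time
  have htime : ∀ t : ℝ, ∑ k ∈ I, ∫⁻ x : EE (n + 1), G k (zt x t) ≤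
      ENNReal.ofReal (Cx ^ 2) * (ENNReal.ofReal Cp * J) := by
    intro t
    have hχt : ‖χ (t / R)‖ₑ ^ 2 ≤ ENNReal.ofReal (Cx ^ 2) := by
      rw [← ofReal_norm, ← ENNReal.ofReal_pow (norm_nonneg _)]
      apply ENNReal.ofReal_le_ofReal
      have := hχ (t / R)
      rw [pow_zero, inv_one, mul_one] at this
      gcongr
    have h1 : ∀ k ∈ I, ∫⁻ x : EE (n + 1), G k (zt x t) ≤
        ENNReal.ofReal (Cx ^ 2) * ∫⁻ x, ‖Ua (ac a (ctr s k) s) t f x‖ₑ ^ 2 := by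
      intro k _
      rw [← lintegral_const_mul' _ _ ENNReal.ofReal_ne_top]
      refine lintegral_mono fun x => ?_
      simp only [hG]
      rw [((COV n).1 x t).1, ((COV n).1 x t).2, enorm_mul, mul_pow, mul_comm]
      gcongr
    refine (Finset.sum_le_sum h1).trans ?_
    rw [← Finset.mul_sum]
    gcongr
    exact hP s t A f I hs hs1 hf
  have hztc : ∀ t : ℝ, Continuous fun x : EE (n + 1) => (zt x t : Z n) := by
    intro t
    unfold zt
    refine Continuous.prodMk (by fun_prop) (Continuous.prodMk continuous_pr (by fun_prop))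
  calc ∑ p ∈ P, ∫⁻ z', ‖Ua (ac a (ctr s p.1) s) (tz z') f (xz z') * χ (tz z' / R)‖ₑ ^ 2 *
        ENNReal.ofReal (wt (N' + 2) (Lo (ctr s p.1) s (z' - p.2)))
      = ∫⁻ z', ∑ p ∈ P, G p.1 z' *
        ENNReal.ofReal (wt (N' + 2) (Lo (ctr s p.1) s (z' - p.2))) := by
        rw [lintegral_finsetSum]
        intro p _
        exact (hGm p.1).mul (hwm p)
    _ ≤ ∫⁻ z', (C₃ * ENNReal.ofReal (72 ^ 2 * φ (tz z'))) * ∑ k ∈ I, G k z' :=
        lintegral_mono hpt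
    _ = 2⁻¹ * ∫⁻ t : ℝ, ∫⁻ x : EE (n + 1), (C₃ * ENNReal.ofReal (72 ^ 2 * φ (tz (zt x t)))) *
        ∑ k ∈ I, G k (zt x t) := by
        rw [(COV n).2.2.1]
        exact (hφ72m.const_mul _).mul (Finset.measurable_fun_sum _ fun k _ => hGm k)
    _ ≤ 2⁻¹ * ∫⁻ t : ℝ, (C₃ * ENNReal.ofReal (72 ^ 2) * (ENNReal.ofReal (Cx ^ 2) *
        (ENNReal.ofReal Cp * J))) * ENNReal.ofReal (φ t) := by
        gcongr with t
        simp_rw [((COV n).1 _ t).2]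
        rw [lintegral_const_mul' _ _ (by finiteness), lintegral_finsetSum]
        · refine (mul_le_mul' le_rfl (htime t)).trans (le_of_eq ?_)
          rw [ENNReal.ofReal_mul (by norm_num)]
          ring
        · intro k _
          exact (hGm k).comp (hztc t).measurable
    _ = 2⁻¹ * ((C₃ * ENNReal.ofReal (72 ^ 2) * (ENNReal.ofReal (Cx ^ 2) *
        (ENNReal.ofReal Cp * J))) * (ENNReal.ofReal (s⁻¹ ^ 2) * C₄)) := by
        rw [lintegral_const_mul _ hφm, hφ, ezm_int hs]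
    _ = Kc * ENNReal.ofReal (s⁻¹ ^ 2) * J := by
        rw [hKc]
        ring
    _ ≤ ENNReal.ofReal ((Kc.toReal + 1) * s⁻¹ ^ 2) * J := by
        rw [ENNReal.ofReal_mul (by positivity)]
        gcongr
        calc Kc = ENNReal.ofReal Kc.toReal := (ENNReal.ofReal_toReal hKcf).symm
          _ ≤ _ := ENNReal.ofReal_le_ofReal (by linarith)

end Pool.Agent.H65.EZ
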